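import Pool.Agent.Helper77.RL.Goals3
import Pool.Agent.Helper42.RD.VAL
import Pool.Agent.Helper90.RP.DUAL

/-!
# Project RL (MP_fc6b1e_nt), part III: `X_BEN`, the choice of `b` modulo `p^n`
-/

namespace Pool.Agent.Helper8.RL

open NumberField Polynomial Module IsDedekindDomain TensorProduct Pool.Agent.Helper51.SigLeo
open Pool.Agent.Helper51.RP

theorem x_ben (h1 : Pool.Agent.Helper77.RL.X_BEJ) : Pool.Agent.Helper77.RL.X_BEN := by
  classical
  intro p _ K₁ M₁ _ _ _ _ _ _ _ hgt hp3 𝔫 h𝔫 n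
  induction n with
  | zero =>
    intro D
    refine ⟨1, one_ne_zero, by rw [sub_self]; exact 𝔫.zero_mem, ?_⟩
    intro W Q _ _ _
    rw [pow_zero]
    exact one_dvd _
  | succ n ih =>
    intro D
    obtain ⟨b, hb0, hbn, hb⟩ := ih D
    have hp0 : (p : ℤ) ^ n ≠ 0 := pow_ne_zero _ (by exact_mod_cast (Fact.out : p.Prime).ne_zero)
    have hbK : (b : K₁) ≠ 0 := by
      intro h
      exact hb0 (by exact_mod_cast h)
    have hfin : {Q : HeightOneSpectrum (𝓞 K₁) | D Q + ordv Q (b : K₁) ≠ 0}.Finite := by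
      refine ((D.hasFiniteSupport).union (Pool.Agent.Helper90.RP.Dual.finite_ordv (b : K₁) hbK)).subset ?_
      intro Q hQ
      by_contra hno
      rw [Set.mem_union, not_or] at hno
      obtain ⟨h2, h3⟩ := hno
      have h4 : D Q = 0 := by
        by_contra h5
        exact h2 (by simpa [Function.mem_support] using h5)
      have h5 : ordv Q (b : K₁) = 0 := by
        by_contra h6
        exact h3 h6
      exact hQ (by show D Q + ordv Q (b : K₁) = 0; rw [h4, h5, add_zero])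
    let D' : HeightOneSpectrum (𝓞 K₁) →₀ ℤ := Finsupp.onFinset hfin.toFinset
      (fun Q => if (p : ℤ) ^ n ∣ D Q + ordv Q (b : K₁) then (D Q + ordv Q (b : K₁)) / (p : ℤ) ^ n else 0)
      (by
        intro Q hQ
        rw [Set.Finite.mem_toFinset]
        intro h0
        apply hQ
        rw [h0]
        simp)
    obtain ⟨c, hc0, hcn, hc⟩ := h1 p K₁ M₁ hgt hp3 𝔫 h𝔫 D'
    have hcK : (c : K₁) ≠ 0 := by
      intro h
      exact hc0 (by exact_mod_cast h)
    refine ⟨b * c ^ p ^ n, mul_ne_zero hb0 (pow_ne_zero _ hc0), ?_, ?_⟩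
    · have h2 : c ^ p ^ n - 1 ∈ 𝔫 := by
        obtain ⟨d, hd⟩ := sub_one_dvd_pow_sub_one c (p ^ n)
        rw [hd]
        exact 𝔫.mul_mem_right _ hcn
      have h3 : b * c ^ p ^ n - 1 = b * (c ^ p ^ n - 1) + (b - 1) := by ring
      rw [h3]
      exact 𝔫.add_mem (𝔫.mul_mem_left _ h2) hbn
    · intro W Q hWQ hW hQ
      have h2 := hb W Q hWQ hW hQ
      have h3 := hc W Q hWQ hW hQ
      have h4 : D' Q = (D Q + ordv Q (b : K₁)) / (p : ℤ) ^ n := by
        show (if (p : ℤ) ^ n ∣ D Q + ordv Q (b : K₁) then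
          (D Q + ordv Q (b : K₁)) / (p : ℤ) ^ n else 0) = _
        rw [if_pos h2]
      have h5 : ordv Q ((b * c ^ p ^ n : 𝓞 K₁) : K₁) =
          ordv Q (b : K₁) + (p : ℤ) ^ n * ordv Q (c : K₁) := by
        have h6 : ((b * c ^ p ^ n : 𝓞 K₁) : K₁) = (b : K₁) * (c : K₁) ^ p ^ n := by
          push_cast
          rfl
        rw [h6, Pool.Agent.Helper42.RD.ordv_mul Q hbK (pow_ne_zero _ hcK),
          Pool.Agent.Helper42.RD.ordv_pow]
        push_cast
        rfl
      have h7 : D Q + ordv Q ((b * c ^ p ^ n : 𝓞 K₁) : K₁) =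
          (p : ℤ) ^ n * (D' Q + ordv Q (c : K₁)) := by
        rw [h5, h4]
        obtain ⟨e, he⟩ := h2
        rw [← add_assoc, he, Int.mul_ediv_cancel_left _ hp0]
        ring
      rw [h7, pow_succ]
      exact mul_dvd_mul_left _ h3

end Pool.Agent.Helper8.RL
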